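import Mathlib

/-!
Primitive recursive functions on vectors of natural numbers indexed by a finite type, primitive
recursive families of multisets over finite types, and recursive enumerability of the set of
results of a nondeterministic transition system with primitive recursive steps.
-/

namespace Pool.Agent.H75.PrimVec

open Multiset

/-- Vectors indexed by a finite type are primcodable. -/
@[reducible] noncomputable def vecCod (ι : Type) [Fintype ι] : Primcodable (ι → ℕ) :=
  Primcodable.ofEquiv (Fin (Fintype.card ι) → ℕ)
    ((Fintype.equivFin ι).arrowCongr (Equiv.refl ℕ))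

attribute [local instance] vecCod

theorem prim_coord {ι : Type} [Fintype ι] (i : ι) : Primrec fun v : ι → ℕ => v i := by
  have h1 : Primrec ((Fintype.equivFin ι).arrowCongr (Equiv.refl ℕ)) := Primrec.of_equiv
  have h2 : Primrec₂ (@id (Fin (Fintype.card ι) → ℕ)) := Primrec.fin_app
  refine (h2.comp h1 (Primrec.const (Fintype.equivFin ι i))).of_eq fun v => ?_
  simp [Equiv.arrowCongr]

section

variable {α : Type} [Primcodable α]

theorem prim_sum {κ : Type} (s : Finset κ) (f : κ → α → ℕ) (h : ∀ i ∈ s, Primrec (f i)) :
    Primrec fun a => ∑ i ∈ s, f i a := by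
  classical
  induction s using Finset.induction_on with
  | empty => exact Primrec.const 0
  | insert i s hi ih =>
    refine (Primrec.nat_add.comp (h i (Finset.mem_insert_self i s))
      (ih fun j hj => h j (Finset.mem_insert_of_mem hj))).of_eq fun a => ?_
    rw [Finset.sum_insert hi]

theorem prim_const (p : Prop) : PrimrecPred fun _ : α => p := by
  classical
  exact (Primrec.const (decide p)).primrecPred

theorem prim_all_finset {κ : Type} (s : Finset κ) (p : κ → α → Prop)
    (h : ∀ i ∈ s, PrimrecPred (p i)) : PrimrecPred fun a => ∀ i ∈ s, p i a := by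
  classical
  induction s using Finset.induction_on with
  | empty => exact (prim_const True).of_eq fun a => by simp
  | insert i s hi ih =>
    refine ((h i (Finset.mem_insert_self i s)).and
      (ih fun j hj => h j (Finset.mem_insert_of_mem hj))).of_eq fun a => ?_
    rw [Finset.forall_mem_insert]

theorem prim_all {κ : Type} [Fintype κ] {p : κ → α → Prop} (h : ∀ i, PrimrecPred (p i)) :
    PrimrecPred fun a => ∀ i, p i a :=
  (prim_all_finset Finset.univ p fun i _ => h i).of_eq fun a => by simp

theorem prim_imp {p : Prop} {q : α → Prop} (h : PrimrecPred q) : PrimrecPred fun a => p → q a := by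
  by_cases hp : p
  · exact h.of_eq fun a => by simp [hp]
  · exact (prim_const True).of_eq fun a => by simp [hp]

/-- Primitive recursive families of multisets over a finite type. -/
def PM {ι : Type} [DecidableEq ι] (F : α → Multiset ι) : Prop :=
  ∀ i, Primrec fun a => count i (F a)

variable {ι κ : Type} [DecidableEq ι] [DecidableEq κ]

theorem PM.const (s : Multiset ι) : PM fun _ : α => s := fun _ => Primrec.const _

theorem PM.add {F G : α → Multiset ι} (hF : PM F) (hG : PM G) : PM fun a => F a + G a :=
  fun i => (Primrec.nat_add.comp (hF i) (hG i)).of_eq fun a => by rw [count_add]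

theorem PM.sub {F G : α → Multiset ι} (hF : PM F) (hG : PM G) : PM fun a => F a - G a :=
  fun i => (Primrec.nat_sub.comp (hF i) (hG i)).of_eq fun a => by rw [count_sub]

theorem PM.sum {τ : Type} (s : Finset τ) {F : τ → α → Multiset ι} (h : ∀ t, PM (F t)) :
    PM fun a => ∑ t ∈ s, F t a :=
  fun i => (prim_sum s (fun t a => count i (F t a)) fun t _ => h t i).of_eq fun a => by
    rw [count_sum']

theorem sum_map_univ [Fintype ι] (s : Multiset ι) (g : ι → ℕ) :
    (s.map g).sum = ∑ i, s.count i * g i := by
  induction s using Multiset.induction_on with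
  | empty => simp
  | cons a s ih =>
    rw [map_cons, sum_cons, ih]
    simp only [count_cons, add_mul, Finset.sum_add_distrib]
    simp [add_comm]

theorem PM.bind [Fintype ι] {F : α → Multiset ι} (hF : PM F) (f : ι → Multiset κ) :
    PM fun a => (F a).bind f := fun k => by
  refine (prim_sum Finset.univ (fun i a => count i (F a) * count k (f i)) fun i _ => ?_).of_eq
    fun a => ?_
  · exact Primrec.nat_mul.comp (hF i) (Primrec.const _)
  · rw [count_bind, sum_map_univ]

theorem PM.map [Fintype ι] {F : α → Multiset ι} (hF : PM F) (f : ι → κ) :
    PM fun a => (F a).map f := by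
  have := hF.bind (fun i => ({f i} : Multiset κ))
  simpa only [bind_singleton] using this

theorem PM.filter {F : α → Multiset ι} (hF : PM F) (p : ι → Prop) [DecidablePred p] :
    PM fun a => (F a).filter p := fun i => by
  by_cases h : p i
  · exact (hF i).of_eq fun a => by rw [count_filter, if_pos h]
  · exact (Primrec.const 0).of_eq fun a => by rw [count_filter, if_neg h]

theorem PM.card [Fintype ι] {F : α → Multiset ι} (hF : PM F) : Primrec fun a => card (F a) := by
  refine (prim_sum Finset.univ (fun i a => count i (F a)) fun i _ => hF i).of_eq fun a => ?_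
  have := sum_map_univ (F a) (fun _ => 1)
  simp only [map_const', sum_replicate, smul_eq_mul, mul_one] at this
  exact this.symm

theorem PM.le [Fintype ι] {F G : α → Multiset ι} (hF : PM F) (hG : PM G) :
    PrimrecPred fun a => F a ≤ G a :=
  (prim_all fun i => Primrec.nat_le.comp (hF i) (hG i)).of_eq fun a => by rw [le_iff_count]

theorem PM.eq [Fintype ι] {F G : α → Multiset ι} (hF : PM F) (hG : PM G) :
    PrimrecPred fun a => F a = G a :=
  (prim_all fun i => Primrec.eq.comp (hF i) (hG i)).of_eq fun a => by
    rw [Multiset.ext]

end

/-- The multiset with given multiplicities. -/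
def ofCounts {ι : Type} [Fintype ι] (v : ι → ℕ) : Multiset ι := ∑ i, v i • {i}

theorem count_ofCounts {ι : Type} [Fintype ι] [DecidableEq ι] (v : ι → ℕ) (i : ι) :
    count i (ofCounts v) = v i := by
  rw [ofCounts, count_sum']
  simp only [count_nsmul, count_singleton]
  simp

theorem ofCounts_count {ι : Type} [Fintype ι] [DecidableEq ι] (s : Multiset ι) :
    ofCounts (fun i => count i s) = s := by
  ext i
  rw [count_ofCounts]

theorem PM.ofCounts {α : Type} [Primcodable α] {ι : Type} [Fintype ι] [DecidableEq ι]
    {f : α → ι → ℕ} (h : ∀ i, Primrec fun a => f a i) : PM fun a => ofCounts (f a) :=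
  fun i => (h i).of_eq fun a => by rw [count_ofCounts]

/-- Projections of primitive recursive relations are recursively enumerable. -/
theorem rePred_exists {α β : Type} [Primcodable α] [Primcodable β] {P : α → β → Prop}
    (hP : PrimrecRel P) : REPred fun a => ∃ b, P a b := by
  classical
  have hdec : PrimrecPred fun p : α × ℕ => ∃ b ∈ (Encodable.decode (α := β) p.2).toList,
      P p.1 b := by
    have h1 : PrimrecRel fun (b : β) (a : α) => P a b := hP.swap
    have h2 : PrimrecRel fun (L : List β) (a : α) => ∃ b ∈ L, P a b := h1.exists_mem_list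
    exact h2.comp (Primrec.optionToList.comp (Primrec.decode.comp Primrec.snd)) Primrec.fst
  have hf : Primrec₂ fun (a : α) (n : ℕ) =>
      if ∃ b ∈ (Encodable.decode (α := β) n).toList, P a b then some () else none :=
    Primrec.ite hdec (Primrec.const (some ())) (Primrec.const none)
  refine (Partrec.dom_re (Partrec.rfindOpt hf.to_comp)).of_eq fun a => ?_
  rw [Nat.rfindOpt_dom]
  constructor
  · rintro ⟨n, u, hn⟩
    by_cases h : ∃ b ∈ (Encodable.decode (α := β) n).toList, P a b
    · obtain ⟨b, -, hb⟩ := h
      exact ⟨b, hb⟩
    · rw [if_neg h] at hn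
      exact absurd hn (by simp)
  · rintro ⟨b, hb⟩
    refine ⟨Encodable.encode b, (), ?_⟩
    rw [if_pos ⟨b, by simp, hb⟩]
    rfl

/-- The results of a nondeterministic transition system with primitive recursive steps form a
recursively enumerable set. -/
theorem rePred_reach {α β : Type} [Primcodable α] [Primcodable β] {st : α → α → β → Prop}
    (hst : PrimrecPred fun x : α × α × β => st x.1 x.2.1 x.2.2) (a0 : α) {fin : ℕ → α → Prop}
    (hfin : PrimrecRel fin) :
    REPred fun n => ∃ a, Relation.ReflTransGen (fun a b => ∃ w, st a b w) a0 a ∧ fin n a := by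
  classical
  set g : Option α × (α × β) → Option α := fun x =>
    x.1.bind fun a => if st a x.2.1 x.2.2 then some x.2.1 else none with hg
  have hgp : Primrec g := by
    refine Primrec.option_bind Primrec.fst ?_
    refine Primrec.ite (c := fun y : (Option α × (α × β)) × α => st y.2 y.1.2.1 y.1.2.2) ?_ ?_ ?_
    · exact hst.comp (Primrec.snd.pair ((Primrec.fst.comp (Primrec.snd.comp Primrec.fst)).pair
        (Primrec.snd.comp (Primrec.snd.comp Primrec.fst))))
    · exact Primrec.option_some.comp (Primrec.fst.comp (Primrec.snd.comp Primrec.fst))
    · exact Primrec.const none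
  set run : List (α × β) → Option α := fun L => L.foldl (fun s b => g (s, b)) (some a0) with hrun
  have hrunp : Primrec run := by
    have h2 : Primrec₂ fun (_ : List (α × β)) (x : Option α × (α × β)) => g x :=
      hgp.comp Primrec.snd
    exact Primrec.list_foldl Primrec.id (Primrec.const (some a0)) h2
  have hkey : ∀ a, Relation.ReflTransGen (fun a b => ∃ w, st a b w) a0 a ↔
      ∃ L, run L = some a := by
    intro a
    constructor
    · intro h
      induction h with
      | refl => exact ⟨[], rfl⟩
      | @tail b c _ h ih =>
        obtain ⟨L, hL⟩ := ih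
        obtain ⟨w, hw⟩ := h
        refine ⟨L ++ [(c, w)], ?_⟩
        simp only [hrun, List.foldl_append, List.foldl_cons, List.foldl_nil] at hL ⊢
        rw [hL]
        simp only [hg, Option.bind_some]
        rw [if_pos hw]
    · rintro ⟨L, hL⟩
      induction L using List.reverseRecOn generalizing a with
      | nil =>
        simp only [hrun, List.foldl_nil, Option.some.injEq] at hL
        subst hL
        exact .refl
      | append_singleton L x ih =>
        simp only [hrun, List.foldl_append, List.foldl_cons, List.foldl_nil] at hL
        rcases h : L.foldl (fun s b => g (s, b)) (some a0) with _ | b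
        · rw [h] at hL
          simp [hg] at hL
        · rw [h] at hL
          simp only [hg, Option.bind_some] at hL
          split_ifs at hL with hw
          simp only [Option.some.injEq] at hL
          subst hL
          exact (ih b h).tail ⟨x.2, hw⟩
  have hP : PrimrecRel fun (n : ℕ) (L : List (α × β)) => ∃ a ∈ (run L).toList, fin n a := by
    have h1 : PrimrecRel fun (a : α) (n : ℕ) => fin n a := hfin.swap
    have h2 : PrimrecRel fun (L : List α) (n : ℕ) => ∃ a ∈ L, fin n a := h1.exists_mem_list
    exact h2.comp (Primrec.optionToList.comp (hrunp.comp Primrec.snd)) Primrec.fst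
  refine (rePred_exists hP).of_eq fun n => ?_
  constructor
  · rintro ⟨L, a, ha, hf⟩
    rw [Option.mem_toList] at ha
    exact ⟨a, (hkey a).2 ⟨L, ha⟩, hf⟩
  · rintro ⟨a, h, hf⟩
    obtain ⟨L, hL⟩ := (hkey a).1 h
    exact ⟨L, a, by rw [Option.mem_toList]; exact hL, hf⟩

end Pool.Agent.H75.PrimVec
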